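import Pool.Agent.Helper94.GA.Goals

namespace Pool.Agent.Helper25.GA

open Finset Pointwise Filter Topology
open Pool.Agent.Helper11.Gap Pool.Agent.Helper94.GA

universe u v

theorem lift_mem {Γ : Type u} [Group Γ] [DecidableEq Γ] (S : Finset Γ) {Q : Type v} [Group Q]
    [DecidableEq Q] (φ : Subgroup.closure (S : Set Γ) →* Q) (T : Finset Q)
    (hT : ∀ y ∈ T, ∃ z : Subgroup.closure (S : Set Γ), ((z : Γ) = 1 ∨ (z : Γ) ∈ S) ∧ φ z = y)
    (k : ℕ) : ∀ y ∈ T ^ k, ∃ z : Subgroup.closure (S : Set Γ),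
      (z : Γ) ∈ (insert 1 S) ^ k ∧ φ z = y := by
  induction k with
  | zero =>
    intro y hy
    rw [pow_zero, Finset.mem_one] at hy
    refine ⟨1, ?_, ?_⟩
    · rw [pow_zero, Finset.mem_one]; rfl
    · rw [map_one, hy]
  | succ k ih =>
    intro y hy
    rw [pow_succ] at hy
    obtain ⟨a, ha, b, hb, rfl⟩ := Finset.mem_mul.1 hy
    obtain ⟨z, hz, rfl⟩ := ih a ha
    obtain ⟨w, hw, rfl⟩ := hT b hb
    refine ⟨z * w, ?_, map_mul _ _ _⟩
    rw [pow_succ]
    refine Finset.mem_mul.2 ⟨z, hz, w, ?_, rfl⟩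
    rcases hw with h | h
    · rw [h]; exact Finset.mem_insert_self _ _
    · exact Finset.mem_insert_of_mem h

theorem card_le {Γ : Type u} [Group Γ] [DecidableEq Γ] (S : Finset Γ) {Q : Type v} [Group Q]
    [DecidableEq Q] (φ : Subgroup.closure (S : Set Γ) →* Q) (T : Finset Q)
    (hT : ∀ y ∈ T, ∃ z : Subgroup.closure (S : Set Γ), ((z : Γ) = 1 ∨ (z : Γ) ∈ S) ∧ φ z = y)
    (k : ℕ) : (T ^ k).card ≤ ((insert 1 S) ^ k).card := by
  classical
  have hsub : T ^ k ⊆ ((insert 1 S) ^ k).image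
      (fun x : Γ => if h : x ∈ Subgroup.closure (S : Set Γ) then φ ⟨x, h⟩ else 1) := by
    intro y hy
    obtain ⟨z, hz, rfl⟩ := lift_mem S φ T hT k y hy
    refine Finset.mem_image.2 ⟨z, hz, ?_⟩
    rw [dif_pos z.2]
  exact (Finset.card_le_card hsub).trans Finset.card_image_le

theorem RATE : RATE_stmt.{u, v} := by
  intro Γ _ _ S hne hsymm Q _ _ φ T hT l a ρ hl ha hG hρ
  obtain ⟨B, hB⟩ := hG
  have hl' : (0 : ℝ) < l := by exact_mod_cast hl
  have hsub : Tendsto (fun k : ℕ => l * k + 1) atTop atTop :=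
    (tendsto_add_atTop_iff_nat 1).2 tendsto_id |>.comp (tendsto_id.const_mul_atTop' hl)
  have h1 := hρ.comp hsub
  have hbound : ∀ k : ℕ, (a * ((k : ℝ) - B) - Real.log 2) / ((l : ℝ) * k + 1) ≤
      ((fun n : ℕ => Real.log ((S ^ n).card : ℝ) / n) ∘ fun k : ℕ => l * k + 1) k := by
    intro k
    have hc1 : (1 : ℝ) ≤ ((S ^ (l * k + 1)).card : ℝ) := by
      exact_mod_cast (hne.pow).card_pos
    have hc : (0 : ℝ) < ((S ^ (l * k + 1)).card : ℝ) := by linarith
    have h2 : ((T ^ (l * k)).card : ℝ) ≤ 2 * ((S ^ (l * k + 1)).card : ℝ) := by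
      exact_mod_cast (card_le S φ T hT (l * k)).trans (card_insert_pow_le S hne hsymm (l * k))
    have h3 : Real.log ((T ^ (l * k)).card : ℝ) ≤ Real.log (2 * ((S ^ (l * k + 1)).card : ℝ)) := by
      rcases Nat.eq_zero_or_pos (T ^ (l * k)).card with h0 | h0
      · rw [h0, Nat.cast_zero, Real.log_zero]
        exact Real.log_nonneg (by linarith)
      · exact Real.log_le_log (by exact_mod_cast h0) h2
    rw [Real.log_mul (by norm_num) hc.ne'] at h3
    have h4 := hB k
    simp only [Function.comp_apply]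
    push_cast
    apply div_le_div_of_nonneg_right _ (by positivity)
    linarith
  have hlim : Tendsto (fun k : ℕ => (a * ((k : ℝ) - B) - Real.log 2) / ((l : ℝ) * k + 1)) atTop
      (𝓝 (a / l)) := by
    have e : ∀ᶠ k : ℕ in atTop, (a - (a * B + Real.log 2) / (k : ℝ)) / ((l : ℝ) + 1 / (k : ℝ)) =
        (a * ((k : ℝ) - B) - Real.log 2) / ((l : ℝ) * k + 1) := by
      filter_upwards [eventually_gt_atTop 0] with k hk
      have hk' : (0 : ℝ) < k := by exact_mod_cast hk
      field_simp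
      ring
    refine Tendsto.congr' e ?_
    have t1 : Tendsto (fun k : ℕ => a - (a * B + Real.log 2) / (k : ℝ)) atTop
        (𝓝 (a - 0)) :=
      tendsto_const_nhds.sub (tendsto_const_div_atTop_nhds_zero_nat _)
    have t2 : Tendsto (fun k : ℕ => (l : ℝ) + 1 / (k : ℝ)) atTop (𝓝 ((l : ℝ) + 0)) :=
      tendsto_const_nhds.add (tendsto_const_div_atTop_nhds_zero_nat _)
    have t3 := t1.div t2 (by rw [add_zero]; exact hl'.ne')
    rw [sub_zero, add_zero] at t3
    exact t3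
  exact le_of_tendsto_of_tendsto' hlim h1 hbound

end Pool.Agent.Helper25.GA
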